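import Mathlib
import Pool.Agent.Q184.Ball.Transfer

/-!
# Products of bo-bounded balleans are bo-bounded
-/

universe u v

open Set

namespace Pool.Agent.Results.MP_34945e_gt.BoProduct

variable {X : Type u} {Y : Type v}

/-- A ballean: every entourage contains the diagonal, each `E ∘ F⁻¹` is contained in an entourage,
and the union of the entourages is `X × X`. -/
structure IsBallean (𝓔 : Set (Set (X × X))) : Prop where
  diag : ∀ E ∈ 𝓔, ∀ x, (x, x) ∈ E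
  comp : ∀ E ∈ 𝓔, ∀ F ∈ 𝓔, ∃ D ∈ 𝓔, {p : X × X | ∃ y, (p.1, y) ∈ E ∧ (p.2, y) ∈ F} ⊆ D
  cover : ⋃₀ 𝓔 = univ

/-- `E[x] = {y : (x, y) ∈ E}`. -/
def ball (E : Set (X × X)) (x : X) : Set X := {y | (x, y) ∈ E}

/-- Bounded sets. -/
def Bounded (𝓔 : Set (Set (X × X))) (B : Set X) : Prop := ∃ E ∈ 𝓔, ∃ x, B ⊆ ball E x

/-- Boundedly oscillating functions. -/
def BoundedlyOscillating (𝓔 : Set (Set (X × X))) (f : X → ℝ) : Prop :=
  ∃ C : ℝ, 0 < C ∧ ∀ E ∈ 𝓔, ∃ B, Bounded 𝓔 B ∧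
    ∀ x, x ∉ B → Metric.ediam (f '' ball E x) < ENNReal.ofReal C

/-- bo-bounded balleans: every boundedly oscillating function is bounded off a bounded set. -/
def BoBounded (𝓔 : Set (Set (X × X))) : Prop :=
  ∀ f : X → ℝ, BoundedlyOscillating 𝓔 f → ∃ B, Bounded 𝓔 B ∧ ∃ K : ℝ, ∀ x, x ∉ B → |f x| ≤ K

/-- The entourage `E × F = {((x,y),(x',y')) : (x,x') ∈ E, (y,y') ∈ F}` of the product. -/
def prodEntourage (E : Set (X × X)) (F : Set (Y × Y)) : Set ((X × Y) × (X × Y)) :=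
  {p | (p.1.1, p.2.1) ∈ E ∧ (p.1.2, p.2.2) ∈ F}

/-- The entourages of the product ballean. -/
def prodStructure (𝓔 : Set (Set (X × X))) (𝓕 : Set (Set (Y × Y))) :
    Set (Set ((X × Y) × (X × Y))) :=
  {S | ∃ E ∈ 𝓔, ∃ F ∈ 𝓕, S = prodEntourage E F}

theorem IsBallean.isBall {𝓔 : Set (Set (X × X))} (h : IsBallean 𝓔) : Q184.Ball.IsBall 𝓔 where
  refl E hE := ⟨E, hE, Subset.rfl, h.diag E hE⟩
  comp E hE F hF := by
    obtain ⟨D, hD, hsub⟩ := h.comp E hE F hF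
    exact ⟨D, hD, fun x y z hxy hzy => hsub ⟨y, hxy, hzy⟩⟩
  cover x y := by
    have : (x, y) ∈ ⋃₀ 𝓔 := by rw [h.cover]; exact mem_univ _
    obtain ⟨E, hE, hxy⟩ := this
    exact ⟨E, hE, hxy⟩

/-- For any two bo-bounded balleans `X`, `Y` the product ballean `X × Y` is bo-bounded. -/
theorem result {X : Type u} {Y : Type v} (𝓔 : Set (Set (X × X))) (𝓕 : Set (Set (Y × Y)))
    (h𝓔 : IsBallean 𝓔) (h𝓕 : IsBallean 𝓕) (hX : BoBounded 𝓔) (hY : BoBounded 𝓕) :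
    BoBounded (prodStructure 𝓔 𝓕) := by
  rintro f ⟨C, hC0, hf⟩
  have hP1 : ∀ S ∈ prodStructure 𝓔 𝓕, ∃ E ∈ 𝓔, ∃ F ∈ 𝓕, S ⊆ Q184.Ball.rect E F := by
    rintro S ⟨E, hE, F, hF, rfl⟩
    exact ⟨E, hE, F, hF, Subset.rfl⟩
  have hP2 : ∀ E ∈ 𝓔, ∀ F ∈ 𝓕, Q184.Ball.rect E F ∈ prodStructure 𝓔 𝓕 :=
    fun E hE F hF => ⟨E, hE, F, hF, rfl⟩
  have hosc : ∀ S ∈ prodStructure 𝓔 𝓕, Q184.Ball.Osc (prodStructure 𝓔 𝓕) f S C := by
    intro S hS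
    obtain ⟨B, hB, hb⟩ := hf S hS
    exact ⟨B, hB, fun x hx => (Q184.Ball.ediam_image_le hC0.le).mp (hb x hx).le⟩
  have hlt : ENNReal.ofReal C < ENNReal.ofReal (C + 1) :=
    (ENNReal.ofReal_lt_ofReal_iff (by linarith)).mpr (by linarith)
  -- the families of entourages are nonempty
  have hne𝓔 : ∃ E, E ∈ 𝓔 := by
    by_contra hcon
    push Not at hcon
    obtain ⟨B, ⟨E, hE, -⟩, -⟩ := hX (fun _ => 0) ⟨1, one_pos, fun E hE => absurd hE (hcon E)⟩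
    exact hcon E hE
  have hne𝓕 : ∃ F, F ∈ 𝓕 := by
    by_contra hcon
    push Not at hcon
    obtain ⟨B, ⟨E, hE, -⟩, -⟩ := hY (fun _ => 0) ⟨1, one_pos, fun E hE => absurd hE (hcon E)⟩
    exact hcon E hE
  obtain ⟨E0, hE0⟩ := hne𝓔
  obtain ⟨F0, hF0⟩ := hne𝓕
  refine Q184.Ball.prod_core h𝓔.isBall h𝓕.isBall (prodStructure 𝓔 𝓕) hP1 hP2 f
    (fun S hS => ⟨C, hosc S hS⟩) ?_ ?_
  · intro g hg
    refine hX g ⟨C + 1, by linarith, fun E hE => ?_⟩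
    obtain ⟨B, hB, hb⟩ := hg E hE F0 hF0 (h𝓔.diag E hE) (h𝓕.diag F0 hF0) C hC0.le
      (hosc _ (hP2 E hE F0 hF0))
    exact ⟨B, hB, fun x hx =>
      lt_of_le_of_lt ((Q184.Ball.ediam_image_le hC0.le).mpr (hb x hx)) hlt⟩
  · intro g hg
    refine hY g ⟨C + 1, by linarith, fun F hF => ?_⟩
    obtain ⟨B, hB, hb⟩ := hg E0 hE0 F hF (h𝓔.diag E0 hE0) (h𝓕.diag F hF) C hC0.le
      (hosc _ (hP2 E0 hE0 F hF))
    exact ⟨B, hB, fun x hx =>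
      lt_of_le_of_lt ((Q184.Ball.ediam_image_le hC0.le).mpr (hb x hx)) hlt⟩

end Pool.Agent.Results.MP_34945e_gt.BoProduct
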